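import Mathlib

set_option autoImplicit false

namespace Pool.Agent.FBR

open Finset

/-- The room in the bracket of a vertex (in units of `1 / M`). -/
noncomputable def psi (M j : ℝ) : ℝ := j * (M - 1 - j) / (j + 1)

theorem psi_eq {M j : ℝ} (hj : 0 ≤ j) : psi M j = M * (j / (j + 1)) - j := by
  unfold psi
  have : j + 1 ≠ 0 := by positivity
  field_simp
  ring

theorem psi_min {M j d : ℝ} (hj : 1 ≤ j) (hjd : j ≤ d) :
    min (psi M 1) (psi M d) ≤ psi M j := by
  have hj1 : (0 : ℝ) < j + 1 := by linarith
  have hd1 : (0 : ℝ) < d + 1 := by linarith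
  have h1 : psi M j - psi M 1 = (j - 1) * (M - 2 * (j + 1)) / (2 * (j + 1)) := by
    unfold psi
    field_simp
    ring
  have h2 : psi M j - psi M d = (d - j) * ((j + 1) * (d + 1) - M) / ((j + 1) * (d + 1)) := by
    unfold psi
    field_simp
    ring
  by_cases h : 2 * (j + 1) ≤ M
  · have h3 : 0 ≤ (j - 1) * (M - 2 * (j + 1)) / (2 * (j + 1)) :=
      div_nonneg (mul_nonneg (by linarith) (by linarith)) (by positivity)
    exact le_trans (min_le_left _ _) (by linarith)
  · push Not at h
    have h4 : M ≤ (j + 1) * (d + 1) := by nlinarith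
    have h3 : 0 ≤ (d - j) * ((j + 1) * (d + 1) - M) / ((j + 1) * (d + 1)) :=
      div_nonneg (mul_nonneg (by linarith) (by linarith)) (by positivity)
    exact le_trans (min_le_right _ _) (by linarith)

/-- The value function of the star filling: `A` = total cap excess, `B` = total share excess, `C` =
room in the star, `y'` = room in the brackets. -/
noncomputable def mg (C y' A B : ℝ) : ℝ := min A (min C ((B + y') / 2))

theorem mg_zero {C y' : ℝ} (hC : 0 ≤ C) (hy' : 0 ≤ y') : mg C y' 0 0 = 0 := by
  unfold mg
  rw [min_eq_left]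
  exact le_min hC (by linarith)

theorem mg_mono {C y' A B a b : ℝ} (ha : 0 ≤ a) (hb : 0 ≤ b) :
    mg C y' A B ≤ mg C y' (A + a) (B + b) := by
  unfold mg
  exact min_le_min (by linarith) (min_le_min le_rfl (by linarith))

theorem mg_lip {C y' A B a b : ℝ} (ha : 0 ≤ a) (hb : b ≤ 2 * a) :
    mg C y' (A + a) (B + b) - mg C y' A B ≤ a := by
  unfold mg
  rcases min_choice A (min C ((B + y') / 2)) with h | h <;> rw [h]
  · have := min_le_left (A + a) (min C ((B + b + y') / 2))
    linarith
  · rcases min_choice C ((B + y') / 2) with h' | h' <;> rw [h']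
    · have := (min_le_right (A + a) (min C ((B + b + y') / 2))).trans (min_le_left _ _)
      linarith
    · have := (min_le_right (A + a) (min C ((B + b + y') / 2))).trans (min_le_right _ _)
      linarith

theorem mg_le {C y' A B : ℝ} : mg C y' A B ≤ C :=
  (min_le_right _ _).trans (min_le_left _ _)

theorem mg_le_half {C y' A B : ℝ} : 2 * mg C y' A B - B ≤ y' := by
  have : mg C y' A B ≤ (B + y') / 2 := (min_le_right _ _).trans (min_le_right _ _)
  linarith

theorem mg_le_self {C y' A B : ℝ} : mg C y' A B ≤ A := min_le_left _ _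

/-- the key step of the filling: increments of `2 m - B`. -/
theorem mg_step {C y' A B a b : ℝ} (hb : 0 ≤ b) (hab : b ≤ 2 * a) :
    max 0 (2 * (mg C y' (A + a) (B + b) - mg C y' A B) - b) + min (2 * A - B) y' ≤
      min (2 * (A + a) - (B + b)) y' := by
  rcases le_total (2 * (mg C y' (A + a) (B + b) - mg C y' A B) - b) 0 with h | h
  · rw [max_eq_left h, zero_add]
    exact min_le_min (by linarith) le_rfl
  · rw [max_eq_right h]
    have h1 : min (2 * A - B) y' ≤ 2 * mg C y' A B - B ∨
        2 * (mg C y' (A + a) (B + b) - mg C y' A B) - b ≤ 0 := by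
      rcases min_choice A (min C ((B + y') / 2)) with h1 | h1
      · left
        unfold mg
        rw [h1]
        exact min_le_left _ _
      · rcases min_choice C ((B + y') / 2) with h2 | h2
        · right
          have h3 : mg C y' (A + a) (B + b) ≤ C := mg_le
          have h4 : mg C y' A B = C := by unfold mg; rw [h1, h2]
          linarith
        · left
          unfold mg
          rw [h1, h2]
          have := min_le_right (2 * A - B) y'
          linarith
    have h6 : 2 * mg C y' (A + a) (B + b) - (B + b) ≤ min (2 * (A + a) - (B + b)) y' := by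
      refine le_min ?_ mg_le_half
      have : mg C y' (A + a) (B + b) ≤ A + a := mg_le_self
      linarith
    rcases h1 with h1 | h1
    · linarith
    · have h7 : min (2 * A - B) y' ≤ min (2 * (A + a) - (B + b)) y' :=
        min_le_min (by linarith) le_rfl
      linarith

variable {ι : Type*}

/-- Greedy filling of a star, in the order of decreasing weights. -/
theorem fill [DecidableEq ι] (w a b : ι → ℝ) {C y' : ℝ} (hC : 0 ≤ C) (hy' : 0 ≤ y') (S : Finset ι) :
    (∀ u ∈ S, 0 ≤ b u ∧ b u ≤ 2 * a u) →
    ∃ g : ι → ℝ, (∀ u ∈ S, 0 ≤ g u ∧ g u ≤ a u) ∧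
      (∀ U ⊆ S, (∀ u ∈ U, ∀ u' ∈ S, w u ≤ w u' → u' ∈ U) →
        ∑ u ∈ U, g u = mg C y' (∑ u ∈ U, a u) (∑ u ∈ U, b u)) ∧
      (∀ K ⊆ S, ∑ u ∈ K, (2 * g u - b u) ≤ min (2 * ∑ u ∈ S, a u - ∑ u ∈ S, b u) y') := by
  induction S using Finset.induction_on_min_value w with
  | empty =>
    intro _
    refine ⟨fun _ => 0, by simp, ?_, ?_⟩
    · intro U hU _
      rw [subset_empty.1 hU]
      simp [mg_zero hC hy']
    · intro K hK
      rw [subset_empty.1 hK]
      simp [hy']
  | insert z s hzs hmin ih =>
    intro hh
    obtain ⟨g, hg1, hg2, hg3⟩ := ih fun u hu => hh u (mem_insert_of_mem hu)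
    obtain ⟨hz1, hz2⟩ := hh z (mem_insert_self z s)
    set A := ∑ u ∈ s, a u with hA
    set B := ∑ u ∈ s, b u with hB
    set g' : ι → ℝ := Function.update g z (mg C y' (A + a z) (B + b z) - mg C y' A B) with hg'
    have hg'a : g' z = mg C y' (A + a z) (B + b z) - mg C y' A B := by simp [hg']
    have hg's : ∀ u ∈ s, g' u = g u := by
      intro u hu
      have : u ≠ z := fun h => hzs (h ▸ hu)
      simp [hg', this]
    have hsum : ∀ U ⊆ s, ∑ u ∈ U, g' u = ∑ u ∈ U, g u := fun U hU =>
      sum_congr rfl fun u hu => hg's u (hU hu)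
    have hfull : ∑ u ∈ s, g u = mg C y' A B := hg2 s Subset.rfl (fun _ _ u' hu' _ => hu')
    refine ⟨g', ?_, ?_, ?_⟩
    · intro u hu
      rcases mem_insert.1 hu with rfl | hu
      · rw [hg'a]
        constructor
        · have := mg_mono (C := C) (y' := y') (A := A) (B := B) (a := a u) (b := b u)
            (by linarith) hz1
          linarith
        · exact mg_lip (by linarith) hz2
      · rw [hg's u hu]
        exact hg1 u hu
    · intro U hU hup
      by_cases haU : z ∈ U
      · have hUeq : U = insert z s := by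
          refine Subset.antisymm hU fun u hu => ?_
          rcases mem_insert.1 hu with rfl | hu'
          · exact haU
          · exact hup z haU u hu (hmin u hu')
        rw [hUeq, sum_insert hzs, sum_insert hzs, sum_insert hzs, hg'a, hsum s Subset.rfl, hfull,
          ← hA, ← hB, add_comm (a z) A, add_comm (b z) B]
        ring
      · have hUs : U ⊆ s := fun u hu => by
          rcases mem_insert.1 (hU hu) with rfl | h'
          · exact absurd hu haU
          · exact h'
        rw [hsum U hUs]
        exact hg2 U hUs fun u hu u' hu' hw => hup u hu u' (mem_insert_of_mem hu') hw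
    · intro K hK
      have hK' : K.erase z ⊆ s := by
        intro u hu
        rw [mem_erase] at hu
        rcases mem_insert.1 (hK hu.2) with h' | h'
        · exact absurd h' hu.1
        · exact h'
      have h1 : ∑ u ∈ K.erase z, (2 * g' u - b u) ≤ min (2 * A - B) y' := by
        have h2 : ∑ u ∈ K.erase z, (2 * g' u - b u) = ∑ u ∈ K.erase z, (2 * g u - b u) :=
          sum_congr rfl fun u hu => by rw [hg's u (hK' hu)]
        rw [h2]
        exact hg3 _ hK'
      have h2 : ∑ u ∈ K, (2 * g' u - b u) ≤
          max 0 (2 * (mg C y' (A + a z) (B + b z) - mg C y' A B) - b z) +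
            min (2 * A - B) y' := by
        by_cases haK : z ∈ K
        · rw [← add_sum_erase K _ haK, hg'a]
          exact add_le_add (le_max_right _ _) h1
        · rw [erase_eq_of_notMem haK] at h1
          have := le_max_left 0 (2 * (mg C y' (A + a z) (B + b z) - mg C y' A B) - b z)
          linarith
      rw [sum_insert hzs, sum_insert hzs, ← hA, ← hB, add_comm (a z) A, add_comm (b z) B]
      exact h2.trans (mg_step hz1 hz2)

/-- Layer cake: nonnegative sums over all threshold sets give a nonnegative weighted sum. -/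
theorem layer (n : ℕ) : ∀ (S : Finset ι) (w a : ι → ℝ), S.card = n → (∀ u ∈ S, 0 ≤ w u) →
    (∀ U ⊆ S, (∀ u ∈ U, ∀ u' ∈ S, w u ≤ w u' → u' ∈ U) → 0 ≤ ∑ u ∈ U, a u) →
    0 ≤ ∑ u ∈ S, w u * a u := by
  induction n using Nat.strong_induction_on with
  | _ n ih =>
  intro S w a hcard hw ha
  rcases S.eq_empty_or_nonempty with rfl | hne
  · simp
  obtain ⟨u0, hu0, hmin⟩ := exists_min_image S w hne
  set S' := S.filter fun u => w u0 < w u with hS'
  have hlt : S'.card < n := by
    rw [← hcard]
    refine card_lt_card (filter_ssubset.2 ⟨u0, hu0, lt_irrefl _⟩)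
  have hsub : S' ⊆ S := filter_subset _ _
  have h1 := ih _ hlt S' (fun u => w u - w u0) a rfl
    (fun u hu => by have := (mem_filter.1 hu).2; linarith)
    (by
      intro U hU hup
      refine ha U (hU.trans hsub) fun u hu u' hu' hle => ?_
      have h2 := (mem_filter.1 (hU hu)).2
      exact hup u hu u' (mem_filter.2 ⟨hu', by linarith⟩) (by linarith))
  have h2 : ∑ u ∈ S', (w u - w u0) * a u = ∑ u ∈ S, (w u - w u0) * a u := by
    refine sum_subset hsub fun u hu hu' => ?_
    have h3 : w u = w u0 := by
      refine le_antisymm ?_ (hmin u hu)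
      by_contra h
      exact hu' (mem_filter.2 ⟨hu, not_le.1 h⟩)
    rw [h3]; ring
  have h3 : ∑ u ∈ S, w u * a u = w u0 * ∑ u ∈ S, a u + ∑ u ∈ S, (w u - w u0) * a u := by
    rw [mul_sum, ← sum_add_distrib]
    exact sum_congr rfl fun u _ => by ring
  rw [h3, ← h2]
  have h4 := ha S Subset.rfl (fun _ _ u' hu' _ => hu')
  exact add_nonneg (mul_nonneg (hw u0 hu0) h4) h1

end Pool.Agent.FBR
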