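import Mathlib
import Pool.Agent.FBR.Fill

set_option autoImplicit false

namespace Pool.Agent.FBR

open Finset

variable {V : Type*} [Fintype V] [DecidableEq V]

/-- The part of the 2-section degree of `x` which comes from the edges of size at least three. -/
def t3 (H : Finset (Finset V)) (x : V) : ℕ :=
  ∑ E ∈ H.filter (fun E => x ∈ E ∧ 3 ≤ E.card), (E.card - 1)

/-- Higher neighbours of `v` in the graph of the edges of size two. -/
def hi (H : Finset (Finset V)) (r : V → ℕ) (v : V) : Finset V :=
  univ.filter fun u => ({v, u} : Finset V) ∈ H ∧ r v < r u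

/-- Lower neighbours of `v` in the graph of the edges of size two. -/
def lo (H : Finset (Finset V)) (r : V → ℕ) (v : V) : Finset V :=
  univ.filter fun u => ({v, u} : Finset V) ∈ H ∧ r u < r v

/-- The vertices covered by a matching. -/
def cov (B : Finset (Finset V)) : Finset V := B.biUnion id

/-- `M_v = N - t_v`. -/
noncomputable def Mv (H : Finset (Finset V)) (N : ℝ) (v : V) : ℝ := N - (t3 H v : ℝ)

/-- The number of free neighbours (`X` is the covered set). -/
def dfree (H : Finset (Finset V)) (r : V → ℕ) (X : Finset V) (v : V) : ℕ :=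
  (hi H r v \ X).card + (lo H r v \ X).card

/-- Room in the brackets, in units of `1 / M`. -/
noncomputable def yp (M d : ℝ) : ℝ := max 0 (min (psi M 1) (psi M d))

/-- Cap excess of the edge from `v` to the higher vertex `u`. -/
noncomputable def aa (H : Finset (Finset V)) (N : ℝ) (κ : V → V → ℝ) (v u : V) : ℝ :=
  Mv H N v * κ v u - 1

/-- Share excess of the edge from `v` to the higher vertex `u`. -/
noncomputable def bb (H : Finset (Finset V)) (N : ℝ) (v u : V) : ℝ :=
  ((t3 H u : ℝ) - (t3 H v : ℝ)) / Mv H N u

/-- Room in the star at `v`, in units of `1 / M_v`. -/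
noncomputable def Cr (H : Finset (Finset V)) (r : V → ℕ) (N : ℝ) (κ : V → V → ℝ) (X : Finset V)
    (v : V) : ℝ :=
  Mv H N v - ((hi H r v \ X).card : ℝ) - Mv H N v * ∑ w ∈ lo H r v \ X, κ w v

/-- The value of a set `U` of higher neighbours of `v` when the set `X` is covered, in units of
`1 / M_v`. -/
noncomputable def val (H : Finset (Finset V)) (r : V → ℕ) (N : ℝ) (κ : V → V → ℝ) (X : Finset V)
    (v : V) (U : Finset V) : ℝ :=
  ((U \ X).card : ℝ) + ∑ u ∈ U \ X, min (aa H N κ v u) 0 +
    mg (Cr H r N κ X v) (yp (Mv H N v) (dfree H r X v))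
      (∑ u ∈ U \ X, max (aa H N κ v u) 0)
      (∑ u ∈ U \ X, min (bb H N v u) (2 * max (aa H N κ v u) 0))

end Pool.Agent.FBR
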