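import Mathlib
import Pool.Agent.FBR.Defs

set_option autoImplicit false

namespace Pool.Agent.FBR

open Finset

variable {V : Type*} [Fintype V] [DecidableEq V]

theorem yp_le_psi {M d j : ℝ} (hd : 1 ≤ d) (hM : d + 1 ≤ M) (hj : 1 ≤ j) (hjd : j ≤ d) :
    yp M d ≤ psi M j := by
  unfold yp
  refine max_le ?_ (psi_min hj hjd)
  unfold psi
  exact div_nonneg (mul_nonneg (by linarith) (by linarith)) (by linarith)

theorem br_le {M d j k : ℝ} (hd : 1 ≤ d) (hM : d + 1 ≤ M) (hj : 1 ≤ j) (hjd : j ≤ d)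
    (hjk : j + 1 ≤ k) : (j + yp M d) / M ≤ 1 - 1 / k := by
  have hM0 : 0 < M := by linarith
  have h1 := yp_le_psi hd hM hj hjd
  rw [psi_eq (by linarith)] at h1
  have hj1 : (0 : ℝ) < j + 1 := by linarith
  have h2 : (j + yp M d) / M ≤ j / (j + 1) := by
    rw [div_le_iff₀ hM0]
    linarith
  have h3 : j / (j + 1) = 1 - 1 / (j + 1) := by
    field_simp
    ring
  have h4 : 1 / k ≤ 1 / (j + 1) := one_div_le_one_div_of_le hj1 hjk
  rw [h3] at h2
  linarith

/-- The decision of a free vertex `v` in a given state. -/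
theorem star_fill (H : Finset (Finset V)) (r : V → ℕ) (D : ℕ)
    (hdeg : ∀ x, t3 H x + ((hi H r x).card + (lo H r x).card) ≤ D)
    (hrt : ∀ u v, r u < r v → t3 H u ≤ t3 H v) (κ : V → V → ℝ) (hκ : ∀ v u, 0 ≤ κ v u)
    (X : Finset V) (v : V) (hC : 0 ≤ Cr H r ((D : ℝ) + 1) κ X v) (w : V → ℝ) :
    ∃ x : V → ℝ, (∀ u, 0 ≤ x u) ∧ (∀ u ∈ hi H r v \ X, x u ≤ κ v u) ∧
      (∑ u ∈ hi H r v \ X, x u + ∑ u ∈ lo H r v \ X, κ u v ≤ 1) ∧
      (∀ K : Finset V, Disjoint K X → v ∈ K →
        ∑ u ∈ hi H r v ∩ K, (2 * x u - 1 / Mv H ((D : ℝ) + 1) u) +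
        ∑ u ∈ lo H r v ∩ K, 1 / Mv H ((D : ℝ) + 1) v ≤ 1 - 1 / (K.card : ℝ)) ∧
      (∀ U ⊆ hi H r v, (∀ u ∈ U, ∀ u' ∈ hi H r v, w u ≤ w u' → u' ∈ U) →
        ∑ u ∈ U \ X, x u = val H r ((D : ℝ) + 1) κ X v U / Mv H ((D : ℝ) + 1) v) := by
  classical
  set N : ℝ := (D : ℝ) + 1 with hN
  set M := Mv H N v with hM
  set S := hi H r v \ X with hS
  set d := dfree H r X v with hd
  have hMx : ∀ x, 1 + (((hi H r x).card + (lo H r x).card : ℕ) : ℝ) ≤ Mv H N x := by
    intro x
    have : ((t3 H x + ((hi H r x).card + (lo H r x).card) : ℕ) : ℝ) ≤ D := by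
      exact_mod_cast hdeg x
    rw [Nat.cast_add] at this
    unfold Mv
    rw [hN]
    linarith
  have hM1 : ∀ x, 1 ≤ Mv H N x := fun x => by
    have := hMx x
    have h0 : (0 : ℝ) ≤ (((hi H r x).card + (lo H r x).card : ℕ) : ℝ) := Nat.cast_nonneg _
    linarith
  have hM0 : 0 < M := lt_of_lt_of_le one_pos (hM1 v)
  have hdM : (d : ℝ) + 1 ≤ M := by
    have h1 : d ≤ (hi H r v).card + (lo H r v).card :=
      add_le_add (card_le_card sdiff_subset) (card_le_card sdiff_subset)
    have h2 : (d : ℝ) ≤ (((hi H r v).card + (lo H r v).card : ℕ) : ℝ) := by exact_mod_cast h1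
    have := hMx v
    linarith
  set a : V → ℝ := fun u => max (aa H N κ v u) 0 with ha
  set b : V → ℝ := fun u => min (bb H N v u) (2 * a u) with hb
  have hbb : ∀ u ∈ hi H r v, 0 ≤ bb H N v u ∧ 1 + bb H N v u = M / Mv H N u := by
    intro u hu
    have h1 := (mem_filter.1 hu).2.2
    have h2 : (t3 H v : ℝ) ≤ (t3 H u : ℝ) := by exact_mod_cast hrt v u h1
    have h3 : 0 < Mv H N u := lt_of_lt_of_le one_pos (hM1 u)
    unfold bb
    refine ⟨div_nonneg (by linarith) h3.le, ?_⟩
    rw [eq_div_iff h3.ne', add_mul, div_mul_cancel₀ _ h3.ne', hM]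
    unfold Mv
    ring
  have hy0 : 0 ≤ yp M d := le_max_left _ _
  obtain ⟨g, hg1, hg2, hg3⟩ := fill w a b (C := Cr H r N κ X v) (y' := yp M d) hC hy0 S (by
    intro u hu
    have h1 := (hbb u (mem_sdiff.1 hu).1).1
    have h2 : 0 ≤ a u := le_max_right _ _
    exact ⟨le_min h1 (by linarith), min_le_right _ _⟩)
  set x : V → ℝ := fun u => if u ∈ S then (1 + min (aa H N κ v u) 0 + g u) / M else 0 with hx
  have hxS : ∀ u ∈ S, x u = (1 + min (aa H N κ v u) 0 + g u) / M := fun u hu => by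
    simp only [hx, hu, if_true]
  have haa : ∀ u, -1 ≤ aa H N κ v u := fun u => by
    unfold aa
    have := mul_nonneg hM0.le (hκ v u)
    linarith
  have hSsub : S ⊆ hi H r v := sdiff_subset
  refine ⟨x, ?_, ?_, ?_, ?_, ?_⟩
  · intro u
    simp only [hx]
    split_ifs with h
    · have h1 := (hg1 u h).1
      have h2 : -1 ≤ min (aa H N κ v u) 0 := le_min (haa u) (by norm_num)
      exact div_nonneg (by linarith) hM0.le
    · exact le_rfl
  · intro u hu
    rw [hxS u hu, div_le_iff₀ hM0]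
    have h1 := (hg1 u hu).2
    have h2 : min (aa H N κ v u) 0 + max (aa H N κ v u) 0 = aa H N κ v u := by
      rw [min_add_max]; ring
    have h3 : aa H N κ v u = M * κ v u - 1 := rfl
    simp only [ha] at h1
    linarith
  · -- star
    have h1 : ∑ u ∈ S, x u ≤ ((S.card : ℝ) + Cr H r N κ X v) / M := by
      have h2 : ∑ u ∈ S, x u ≤ ∑ u ∈ S, (1 + g u) / M := by
        refine sum_le_sum fun u hu => ?_
        rw [hxS u hu]
        have : min (aa H N κ v u) 0 ≤ 0 := min_le_right _ _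
        exact div_le_div_of_nonneg_right (by linarith) hM0.le
      refine h2.trans ?_
      rw [← sum_div, sum_add_distrib, sum_const, nsmul_eq_mul, mul_one]
      refine div_le_div_of_nonneg_right ?_ hM0.le
      have h3 := hg2 S Subset.rfl (fun _ _ u' hu' _ => hu')
      rw [h3]
      have h4 : mg (Cr H r N κ X v) (yp M d) (∑ u ∈ S, a u) (∑ u ∈ S, b u) ≤ Cr H r N κ X v :=
        mg_le
      linarith
    have h5 : ((S.card : ℝ) + Cr H r N κ X v) / M = 1 - ∑ w ∈ lo H r v \ X, κ w v := by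
      unfold Cr
      rw [← hS, ← hM]
      field_simp
      ring
    rw [h5] at h1
    linarith
  · -- brackets
    intro K hKX hvK
    set J := hi H r v ∩ K with hJ
    set L := lo H r v ∩ K with hL
    have hJS : J ⊆ S := by
      intro u hu
      rw [hJ, mem_inter] at hu
      exact mem_sdiff.2 ⟨hu.1, disjoint_left.1 hKX hu.2⟩
    have hLX : L ⊆ lo H r v \ X := by
      intro u hu
      rw [hL, mem_inter] at hu
      exact mem_sdiff.2 ⟨hu.1, disjoint_left.1 hKX hu.2⟩
    have hjd : J.card + L.card ≤ d := add_le_add (card_le_card hJS) (card_le_card hLX)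
    have hJL : Disjoint J L := by
      rw [disjoint_left]
      intro u hu hu'
      have h1 := (mem_filter.1 (mem_inter.1 hu).1).2.2
      have h2 := (mem_filter.1 (mem_inter.1 hu').1).2.2
      omega
    have hjK : J.card + L.card + 1 ≤ K.card := by
      rw [← card_union_of_disjoint hJL, ← card_insert_of_notMem (a := v)]
      · refine card_le_card fun u hu => ?_
        rw [mem_insert, mem_union] at hu
        rcases hu with rfl | hu | hu
        · exact hvK
        · exact (mem_inter.1 hu).2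
        · exact (mem_inter.1 hu).2
      · rw [mem_union]
        rintro (hu | hu)
        · exact lt_irrefl _ (mem_filter.1 (mem_inter.1 hu).1).2.2
        · exact lt_irrefl _ (mem_filter.1 (mem_inter.1 hu).1).2.2
    have hsum : ∑ u ∈ J, (2 * x u - 1 / Mv H N u) + ∑ u ∈ L, 1 / M ≤
        (((J.card + L.card : ℕ) : ℝ) + ∑ u ∈ J, (2 * g u - b u)) / M := by
      have h1 : ∑ u ∈ J, (2 * x u - 1 / Mv H N u) ≤ ∑ u ∈ J, (1 + (2 * g u - b u)) / M := by
        refine sum_le_sum fun u hu => ?_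
        have huS := hJS hu
        have h2 : min (aa H N κ v u) 0 ≤ 0 := min_le_right _ _
        have h3 : b u ≤ bb H N v u := min_le_left _ _
        have h4 := (hbb u (hSsub huS)).2
        have h5 : 1 / Mv H N u = (1 + bb H N v u) / M := by
          rw [h4]
          have : Mv H N u ≠ 0 := (lt_of_lt_of_le one_pos (hM1 u)).ne'
          field_simp
        rw [hxS u huS, h5]
        have h6 : 2 * ((1 + min (aa H N κ v u) 0 + g u) / M) - (1 + bb H N v u) / M =
            (2 * (1 + min (aa H N κ v u) 0 + g u) - (1 + bb H N v u)) / M := by ring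
        rw [h6]
        exact div_le_div_of_nonneg_right (by linarith) hM0.le
      rw [← sum_div, sum_add_distrib, sum_const, nsmul_eq_mul, mul_one] at h1
      have h7 : ∑ u ∈ L, 1 / M = (L.card : ℝ) / M := by
        rw [sum_const, nsmul_eq_mul]; ring
      rw [h7]
      have h8 : (((J.card + L.card : ℕ) : ℝ) + ∑ u ∈ J, (2 * g u - b u)) / M =
          ((J.card : ℝ) + ∑ u ∈ J, (2 * g u - b u)) / M + (L.card : ℝ) / M := by
        push_cast; ring
      rw [h8]
      exact add_le_add h1 le_rfl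
    refine hsum.trans ?_
    rcases Nat.eq_zero_or_pos (J.card + L.card) with h0 | hpos
    · have hJ0 : J = ∅ := by
        rw [← card_eq_zero]; omega
      rw [h0, hJ0]
      have hK1 : (1 : ℝ) ≤ K.card := by exact_mod_cast (by omega : 1 ≤ K.card)
      have : 1 / (K.card : ℝ) ≤ 1 := by
        rw [div_le_one (by linarith)]; exact hK1
      simp only [Nat.cast_zero, sum_empty, add_zero, zero_div]
      linarith
    · have h9 := hg3 J hJS
      have h10 : ∑ u ∈ J, (2 * g u - b u) ≤ yp M d := h9.trans (min_le_right _ _)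
      have hj1 : (1 : ℝ) ≤ ((J.card + L.card : ℕ) : ℝ) := by exact_mod_cast hpos
      have hjd' : ((J.card + L.card : ℕ) : ℝ) ≤ (d : ℝ) := by exact_mod_cast hjd
      have hjK' : ((J.card + L.card : ℕ) : ℝ) + 1 ≤ (K.card : ℝ) := by exact_mod_cast hjK
      refine le_trans ?_ (br_le (M := M) (by linarith) hdM hj1 hjd' hjK')
      exact div_le_div_of_nonneg_right (by linarith) hM0.le
  · -- values
    intro U hU hup
    have hUX : U \ X ⊆ S := sdiff_subset_sdiff hU Subset.rfl
    have h1 : ∑ u ∈ U \ X, x u = ∑ u ∈ U \ X, (1 + min (aa H N κ v u) 0 + g u) / M :=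
      sum_congr rfl fun u hu => hxS u (hUX hu)
    have h2 := hg2 (U \ X) hUX (fun u hu u' hu' hle =>
      mem_sdiff.2 ⟨hup u (mem_sdiff.1 hu).1 u' (hSsub hu') hle, (mem_sdiff.1 hu').2⟩)
    rw [h1, ← sum_div, sum_add_distrib, sum_add_distrib, sum_const, nsmul_eq_mul, mul_one, h2]
    rfl

end Pool.Agent.FBR
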