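import Mathlib
import Pool.Agent.Furedi2.Pack

set_option autoImplicit false

namespace Pool.Agent.FBR

open Finset
open Pool.Agent.Furedi (IsMatching)

variable {V : Type*} [DecidableEq V]

/-- Double counting: a sum over the edges inside `K`, each edge evaluated from its lower end. -/
theorem sum_edges {G : Finset (Finset V)} (hG2 : ∀ e ∈ G, e.card = 2) (r : V → ℕ) (K : Finset V)
    (a : V → V → ℝ) :
    ∑ e ∈ G.filter (fun e => e ⊆ K), ∑ v ∈ e, ∑ u ∈ e.filter (fun u => r v < r u), a v u =
      ∑ v ∈ K, ∑ u ∈ K.filter (fun u => ({v, u} : Finset V) ∈ G ∧ r v < r u), a v u := by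
  have h1 : ∑ e ∈ G.filter (fun e => e ⊆ K), ∑ v ∈ e,
        ∑ u ∈ e.filter (fun u => r v < r u), a v u =
      ∑ v ∈ K, ∑ e ∈ G.filter (fun e => e ⊆ K ∧ v ∈ e),
        ∑ u ∈ e.filter (fun u => r v < r u), a v u := by
    refine sum_comm' ?_
    intro e v
    simp only [mem_filter]
    constructor
    · rintro ⟨⟨h1, h2⟩, h3⟩
      exact ⟨⟨h1, h2, h3⟩, h2 h3⟩
    · rintro ⟨⟨h1, h2, h3⟩, _⟩
      exact ⟨⟨h1, h2⟩, h3⟩
  rw [h1]
  refine sum_congr rfl fun v hv => ?_
  have h2 : ∑ e ∈ G.filter (fun e => e ⊆ K ∧ v ∈ e),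
        ∑ u ∈ e.filter (fun u => r v < r u), a v u =
      ∑ u ∈ K.filter (fun u => ({v, u} : Finset V) ∈ G ∧ r v < r u),
        ∑ e ∈ ({({v, u} : Finset V)} : Finset (Finset V)), a v u := by
    refine sum_comm' ?_
    intro e u
    simp only [mem_filter, mem_singleton]
    constructor
    · rintro ⟨⟨heG, heK, hve⟩, hue, hlt⟩
      have hne : v ≠ u := fun h => by rw [h] at hlt; exact lt_irrefl _ hlt
      have hpair : ({v, u} : Finset V) ⊆ e := by
        intro z hz
        rw [mem_insert, mem_singleton] at hz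
        rcases hz with rfl | rfl <;> assumption
      have heq : ({v, u} : Finset V) = e :=
        eq_of_subset_of_card_le hpair (by rw [hG2 e heG, card_pair hne])
      exact ⟨heq.symm, heK hue, heq ▸ heG, hlt⟩
    · rintro ⟨rfl, huK, hG, hlt⟩
      refine ⟨⟨hG, ?_, by simp⟩, by simp, hlt⟩
      intro z hz
      rw [mem_insert, mem_singleton] at hz
      rcases hz with rfl | rfl <;> assumption
  rw [h2]
  exact sum_congr rfl fun u _ => by rw [sum_singleton]

/-- Exchange of lower and higher ends. -/
theorem sum_swap (G : Finset (Finset V)) (r : V → ℕ) (K : Finset V) (a : V → V → ℝ) :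
    ∑ v ∈ K, ∑ u ∈ K.filter (fun u => ({v, u} : Finset V) ∈ G ∧ r v < r u), a v u =
      ∑ v ∈ K, ∑ u ∈ K.filter (fun u => ({v, u} : Finset V) ∈ G ∧ r u < r v), a u v := by
  rw [sum_comm' (t' := K)
    (s' := fun u => K.filter (fun v => ({u, v} : Finset V) ∈ G ∧ r v < r u))]
  intro v u
  simp only [mem_filter]
  rw [pair_comm u v]
  tauto

/-- Edmonds' theorem in the form used here: the lower end `v` of every edge `v u` decides. In the
star of the higher end `u` the edge is charged its cap `κ v u`, in the odd sets the share of the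
higher end is `c v u` and the share of the lower end is `2 x - c`. -/
theorem feas_state [Fintype V] {G : Finset (Finset V)} (hG2 : ∀ e ∈ G, e.card = 2) (r : V → ℕ)
    (R : Finset V) (κ c x : V → V → ℝ)
    (hx0 : ∀ v u, 0 ≤ x v u)
    (hxc : ∀ v ∈ R, ∀ u ∈ R, ({v, u} : Finset V) ∈ G → r v < r u → x v u ≤ κ v u)
    (hstar : ∀ v ∈ R,
      ∑ u ∈ R.filter (fun u => ({v, u} : Finset V) ∈ G ∧ r v < r u), x v u +
      ∑ u ∈ R.filter (fun u => ({v, u} : Finset V) ∈ G ∧ r u < r v), κ u v ≤ 1)
    (hbr : ∀ K ⊆ R, ∀ v ∈ K,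
      ∑ u ∈ K.filter (fun u => ({v, u} : Finset V) ∈ G ∧ r v < r u), (2 * x v u - c v u) +
      ∑ u ∈ K.filter (fun u => ({v, u} : Finset V) ∈ G ∧ r u < r v), c u v ≤
        1 - 1 / (K.card : ℝ))
    (w : Finset V → ℝ) (hw : ∀ e ∈ G, 0 ≤ w e) :
    ∃ M ⊆ G, IsMatching M ∧ (∀ e ∈ M, e ⊆ R) ∧
      ∑ v ∈ R, ∑ u ∈ R.filter (fun u => ({v, u} : Finset V) ∈ G ∧ r v < r u),
        x v u * w {v, u} ≤ ∑ e ∈ M, w e := by
  classical
  set f : Finset V → ℝ := fun e => ∑ v ∈ e, ∑ u ∈ e.filter (fun u => r v < r u), x v u with hf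
  have hf0 : ∀ e, 0 ≤ f e := fun e => sum_nonneg fun v _ => sum_nonneg fun u _ => hx0 v u
  -- sets
  have hset : ∀ K : Finset V, K ⊆ R → K.Nonempty →
      ∑ e ∈ G.filter (fun e => e ⊆ K), f e ≤ ((K.card : ℝ) - 1) / 2 := by
    intro K hK hne
    rw [hf]
    simp only
    rw [sum_edges hG2 r K x]
    have h1 : ∑ v ∈ K, ∑ u ∈ K.filter (fun u => ({v, u} : Finset V) ∈ G ∧ r v < r u), x v u =
        (∑ v ∈ K, (∑ u ∈ K.filter (fun u => ({v, u} : Finset V) ∈ G ∧ r v < r u),
            (2 * x v u - c v u) +
          ∑ u ∈ K.filter (fun u => ({v, u} : Finset V) ∈ G ∧ r u < r v), c u v)) / 2 := by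
      rw [sum_add_distrib, ← sum_swap G r K c, ← sum_add_distrib, sum_div]
      refine sum_congr rfl fun v _ => ?_
      rw [← sum_add_distrib, sum_div]
      exact sum_congr rfl fun u _ => by ring
    rw [h1]
    have h2 := sum_le_sum (hbr K hK)
    rw [sum_const, nsmul_eq_mul] at h2
    have hc : (0 : ℝ) < K.card := by exact_mod_cast card_pos.2 hne
    have h3 : (K.card : ℝ) * (1 - 1 / (K.card : ℝ)) = K.card - 1 := by
      field_simp
    rw [h3] at h2
    linarith
  -- degrees
  have hdeg : ∀ v ∈ R, ∑ e ∈ (G.filter fun e => e ⊆ R).filter (fun e => v ∈ e), f e ≤ 1 := by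
    intro v hv
    set a : V → V → ℝ := fun p q => if p = v ∨ q = v then x p q else 0 with ha
    have h1 : ∑ e ∈ (G.filter fun e => e ⊆ R).filter (fun e => v ∈ e), f e =
        ∑ e ∈ G.filter (fun e => e ⊆ R),
          ∑ p ∈ e, ∑ q ∈ e.filter (fun q => r p < r q), a p q := by
      rw [sum_filter]
      refine sum_congr rfl fun e he => ?_
      have he2 := hG2 e (mem_filter.1 he).1
      split_ifs with hve
      · rw [hf]
        simp only
        refine sum_congr rfl fun p hp => sum_congr rfl fun q hq => ?_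
        rw [mem_filter] at hq
        have hne : p ≠ q := fun h => by rw [h] at hq; exact lt_irrefl _ hq.2
        have hpair : ({p, q} : Finset V) ⊆ e := by
          intro z hz
          rw [mem_insert, mem_singleton] at hz
          rcases hz with rfl | rfl
          · exact hp
          · exact hq.1
        have heq : ({p, q} : Finset V) = e :=
          eq_of_subset_of_card_le hpair (by rw [he2, card_pair hne])
        rw [← heq, mem_insert, mem_singleton] at hve
        rw [ha]
        simp only
        rw [if_pos (by tauto)]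
      · symm
        refine sum_eq_zero fun p hp => sum_eq_zero fun q hq => ?_
        rw [ha]
        simp only
        rw [if_neg]
        rintro (rfl | rfl)
        · exact hve hp
        · exact hve (mem_filter.1 hq).1
    rw [h1, sum_edges hG2 r R a]
    have h2 : ∑ p ∈ R, ∑ q ∈ R.filter (fun q => ({p, q} : Finset V) ∈ G ∧ r p < r q), a p q =
        ∑ p ∈ R, ∑ q ∈ R.filter (fun q => ({p, q} : Finset V) ∈ G ∧ r p < r q),
            (if p = v then x p q else 0) +
        ∑ p ∈ R, ∑ q ∈ R.filter (fun q => ({p, q} : Finset V) ∈ G ∧ r q < r p),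
            (if p = v then x q p else 0) := by
      rw [← sum_swap G r R (fun p q => if q = v then x p q else 0), ← sum_add_distrib]
      refine sum_congr rfl fun p _ => ?_
      rw [← sum_add_distrib]
      refine sum_congr rfl fun q hq => ?_
      have hlt := (mem_filter.1 hq).2.2
      rw [ha]
      simp only
      by_cases hp : p = v
      · have hq' : q ≠ v := fun h => by rw [hp, h] at hlt; exact lt_irrefl _ hlt
        simp [hp, hq']
      · simp [hp]
    rw [h2]
    have h3 : ∑ p ∈ R, ∑ q ∈ R.filter (fun q => ({p, q} : Finset V) ∈ G ∧ r p < r q),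
        (if p = v then x p q else 0) =
        ∑ q ∈ R.filter (fun q => ({v, q} : Finset V) ∈ G ∧ r v < r q), x v q := by
      rw [sum_eq_single v]
      · simp
      · intro p _ hp
        simp [hp]
      · intro h; exact absurd hv h
    have h4 : ∑ p ∈ R, ∑ q ∈ R.filter (fun q => ({p, q} : Finset V) ∈ G ∧ r q < r p),
        (if p = v then x q p else 0) =
        ∑ q ∈ R.filter (fun q => ({v, q} : Finset V) ∈ G ∧ r q < r v), x q v := by
      rw [sum_eq_single v]
      · simp
      · intro p _ hp
        simp [hp]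
      · intro h; exact absurd hv h
    rw [h3, h4]
    refine le_trans (add_le_add le_rfl (sum_le_sum fun q hq => ?_)) (hstar v hv)
    rw [mem_filter] at hq
    exact hxc q hq.1 v hv (by rw [pair_comm]; exact hq.2.1) hq.2.2
  obtain ⟨M, hMG, hMm, hM⟩ := Furedi2.real_pack (G := G.filter fun e => e ⊆ R)
    (fun e he => hG2 e (mem_filter.1 he).1) f hf0 (by
      intro v
      by_cases hv : v ∈ R
      · exact hdeg v hv
      · have : (G.filter fun e => e ⊆ R).filter (fun e => v ∈ e) = ∅ := by
          refine filter_eq_empty_iff.2 fun e he h => hv ((mem_filter.1 he).2 h)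
        rw [this, sum_empty]
        exact zero_le_one)
    (by
      intro K hK
      have h1 : (G.filter fun e => e ⊆ R).filter (fun e => e ⊆ K) =
          G.filter fun e => e ⊆ K ∩ R := by
        ext e
        simp only [mem_filter, subset_inter_iff]
        tauto
      rw [h1]
      by_cases hKR : (K ∩ R).Nonempty
      · refine (hset (K ∩ R) inter_subset_right hKR).trans ?_
        have : ((K ∩ R).card : ℝ) ≤ K.card := by exact_mod_cast card_le_card inter_subset_left
        linarith
      · rw [not_nonempty_iff_eq_empty] at hKR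
        rw [hKR]
        have h2 : G.filter (fun e => e ⊆ ∅) = ∅ := by
          refine filter_eq_empty_iff.2 fun e he h => ?_
          have := hG2 e he
          rw [subset_empty.1 h] at this
          simp at this
        rw [h2, sum_empty]
        have : (1 : ℝ) ≤ K.card := by exact_mod_cast card_pos.2 hK
        linarith)
    w (fun e he => hw e (mem_filter.1 he).1)
  refine ⟨M, hMG.trans (filter_subset _ _), hMm, fun e he => (mem_filter.1 (hMG he)).2, ?_⟩
  refine le_trans (le_of_eq ?_) hM
  rw [← sum_edges hG2 r R (fun v u => x v u * w {v, u})]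
  refine sum_congr rfl fun e he => ?_
  have he2 := hG2 e (mem_filter.1 he).1
  rw [hf]
  simp only
  rw [sum_mul]
  refine sum_congr rfl fun p hp => ?_
  rw [sum_mul]
  refine sum_congr rfl fun q hq => ?_
  rw [mem_filter] at hq
  have hne : p ≠ q := fun h => by rw [h] at hq; exact lt_irrefl _ hq.2
  have hpair : ({p, q} : Finset V) ⊆ e := by
    intro z hz
    rw [mem_insert, mem_singleton] at hz
    rcases hz with rfl | rfl
    · exact hp
    · exact hq.1
  have heq : ({p, q} : Finset V) = e :=
    eq_of_subset_of_card_le hpair (by rw [he2, card_pair hne])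
  rw [heq]

end Pool.Agent.FBR
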