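import Mathlib
import Pool.Agent.FBR.Star
import Pool.Agent.FBR.State
import Pool.Agent.Furedi2.Ext

set_option autoImplicit false

namespace Pool.Agent.FBR

open Finset
open Pool.Agent.Furedi (IsMatching)

variable {V : Type*} [Fintype V] [DecidableEq V]

theorem sum_pair_one {e : Finset V} (he : e.card = 2) {r : V → ℕ} (hr : Function.Injective r)
    (W : Finset V → ℝ) :
    ∑ v ∈ e, ∑ u ∈ e.filter (fun u => r v < r u), W {v, u} = W e := by
  have h1 : ∑ v ∈ e, ∑ u ∈ e.filter (fun u => r v < r u), W {v, u} =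
      ∑ v ∈ e, ∑ u ∈ e.filter (fun u => r v < r u), W e := by
    refine sum_congr rfl fun p hp => sum_congr rfl fun q hq => ?_
    rw [mem_filter] at hq
    have hne : p ≠ q := fun h => by rw [h] at hq; exact lt_irrefl _ hq.2
    have hpair : ({p, q} : Finset V) ⊆ e := by
      intro z hz
      rw [mem_insert, mem_singleton] at hz
      rcases hz with rfl | rfl
      · exact hp
      · exact hq.1
    rw [eq_of_subset_of_card_le hpair (by rw [he, card_pair hne])]
  rw [h1]
  obtain ⟨p, q, hpq, rfl⟩ := card_eq_two.1 he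
  rw [sum_pair hpq]
  rcases lt_or_gt_of_ne (fun h => hpq (hr h) : r p ≠ r q) with h | h
  · have h2 : ({p, q} : Finset V).filter (fun u => r p < r u) = {q} := by
      ext z
      simp only [mem_filter, mem_insert, mem_singleton]
      constructor
      · rintro ⟨rfl | rfl, h'⟩
        · exact absurd h' (lt_irrefl _)
        · rfl
      · rintro rfl
        exact ⟨Or.inr rfl, h⟩
    have h3 : ({p, q} : Finset V).filter (fun u => r q < r u) = ∅ := by
      refine filter_eq_empty_iff.2 fun z hz => ?_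
      rw [mem_insert, mem_singleton] at hz
      rcases hz with rfl | rfl <;> omega
    rw [h2, h3]
    simp
  · have h2 : ({p, q} : Finset V).filter (fun u => r q < r u) = {p} := by
      ext z
      simp only [mem_filter, mem_insert, mem_singleton]
      constructor
      · rintro ⟨rfl | rfl, h'⟩
        · rfl
        · exact absurd h' (lt_irrefl _)
      · rintro rfl
        exact ⟨Or.inl rfl, h⟩
    have h3 : ({p, q} : Finset V).filter (fun u => r p < r u) = ∅ := by
      refine filter_eq_empty_iff.2 fun z hz => ?_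
      rw [mem_insert, mem_singleton] at hz
      rcases hz with rfl | rfl <;> omega
    rw [h2, h3]
    simp

/-- The number of 2-neighbours plus `t_x` is at most `D`. -/
theorem deg_hilo {H : Finset (Finset V)} {D : ℕ}
    (hD : ∀ x, ∑ E ∈ H.filter (fun E => x ∈ E), (E.card - 1) ≤ D) (r : V → ℕ) (x : V) :
    t3 H x + ((hi H r x).card + (lo H r x).card) ≤ D := by
  classical
  have hdisj : Disjoint (hi H r x) (lo H r x) := by
    rw [disjoint_left]
    intro u hu hu'
    have h1 := (mem_filter.1 hu).2.2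
    have h2 := (mem_filter.1 hu').2.2
    omega
  have h1 : (hi H r x).card + (lo H r x).card ≤
      (H.filter fun E => x ∈ E ∧ ¬ 3 ≤ E.card ∧ E.card = 2).card := by
    rw [← card_union_of_disjoint hdisj]
    refine card_le_card_of_injOn (fun u => ({x, u} : Finset V)) ?_ ?_
    · intro u hu
      rw [coe_union, Set.mem_union, mem_coe, mem_coe] at hu
      have h2 : ({x, u} : Finset V) ∈ H ∧ x ≠ u := by
        rcases hu with hu | hu
        · have h3 := (mem_filter.1 hu).2
          exact ⟨h3.1, fun h => by rw [h] at h3; exact lt_irrefl _ h3.2⟩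
        · have h3 := (mem_filter.1 hu).2
          exact ⟨h3.1, fun h => by rw [h] at h3; exact lt_irrefl _ h3.2⟩
      have h4 := card_pair h2.2
      rw [mem_coe, mem_filter]
      refine ⟨h2.1, by simp, ?_, h4⟩
      simp only
      rw [h4]
      omega
    · intro u hu u' hu' heq
      rw [coe_union, Set.mem_union, mem_coe, mem_coe] at hu hu'
      have hne : x ≠ u := by
        rcases hu with hu | hu
        · have h3 := (mem_filter.1 hu).2
          exact fun h => by rw [h] at h3; exact lt_irrefl _ h3.2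
        · have h3 := (mem_filter.1 hu).2
          exact fun h => by rw [h] at h3; exact lt_irrefl _ h3.2
      simp only at heq
      have h5 : u ∈ ({x, u'} : Finset V) := by rw [← heq]; simp
      rw [mem_insert, mem_singleton] at h5
      rcases h5 with h5 | h5
      · exact absurd h5.symm hne
      · exact h5
  have h2 : t3 H x + (H.filter fun E => x ∈ E ∧ ¬ 3 ≤ E.card ∧ E.card = 2).card ≤
      ∑ E ∈ H.filter (fun E => x ∈ E), (E.card - 1) := by
    have h3 := sum_filter_add_sum_filter_not (H.filter (fun E => x ∈ E)) (fun E => 3 ≤ E.card)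
      (fun E => E.card - 1)
    rw [filter_filter, filter_filter] at h3
    rw [← h3]
    unfold t3
    refine add_le_add le_rfl ?_
    have h4 : (H.filter fun E => x ∈ E ∧ ¬ 3 ≤ E.card ∧ E.card = 2).card =
        ∑ E ∈ H.filter (fun E => x ∈ E ∧ ¬ 3 ≤ E.card ∧ E.card = 2), (E.card - 1) := by
      rw [card_eq_sum_ones]
      refine sum_congr rfl fun E hE => ?_
      have := (mem_filter.1 hE).2.2.2
      omega
    rw [h4]
    refine sum_le_sum_of_subset fun E hE => ?_
    rw [mem_filter] at hE ⊢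
    exact ⟨hE.1, hE.2.1, hE.2.2.1⟩
  have := hD x
  omega

/-- Part 2: the criterion for the higher stars suffices. -/
theorem criterion_core {ι : Type*} (H : Finset (Finset V)) (D : ℕ)
    (hD : ∀ x, ∑ E ∈ H.filter (fun E => x ∈ E), (E.card - 1) ≤ D)
    (r : V → ℕ) (hr : Function.Injective r) (hrt : ∀ u v, r u < r v → t3 H u ≤ t3 H v)
    (s : Finset ι) (p : ι → ℝ) (B : ι → Finset (Finset V)) (κ : ι → V → V → ℝ)
    (hp0 : ∀ i ∈ s, 0 ≤ p i) (hp1 : ∑ i ∈ s, p i = 1)
    (hBH : ∀ i ∈ s, B i ⊆ H.filter fun E => 3 ≤ E.card) (hBm : ∀ i ∈ s, IsMatching (B i))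
    (hmarg : ∀ F ∈ H, 3 ≤ F.card → ∑ i ∈ s.filter (fun i => F ∈ B i), p i = 1 / ((D : ℝ) + 1))
    (hκ : ∀ i v u, 0 ≤ κ i v u)
    (hC : ∀ i ∈ s, ∀ v, v ∉ cov (B i) → 0 ≤ Cr H r ((D : ℝ) + 1) (κ i) (cov (B i)) v)
    (hcrit : ∀ v, ∀ U ⊆ hi H r v, Mv H ((D : ℝ) + 1) v * (U.card : ℝ) / ((D : ℝ) + 1) ≤
      ∑ i ∈ s, p i * (if v ∈ cov (B i) then 0 else
        val H r ((D : ℝ) + 1) (κ i) (cov (B i)) v U))
    (w : Finset V → ℝ) :
    ∃ M ⊆ H.filter (fun E => 2 ≤ E.card), IsMatching M ∧
      ∑ E ∈ H.filter (fun E => 2 ≤ E.card), w E ≤ ((D : ℝ) + 1) * ∑ E ∈ M, w E := by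
  classical
  set N : ℝ := (D : ℝ) + 1 with hN
  have hN0 : 0 < N := by rw [hN]; positivity
  set G := H.filter fun e => e.card = 2 with hG
  set H3 := H.filter fun E => 3 ≤ E.card with hH3
  have hG2 : ∀ e ∈ G, e.card = 2 := fun e he => (mem_filter.1 he).2
  set W : Finset V → ℝ := fun e => max (w e) 0 with hW
  have hW0 : ∀ e, 0 ≤ W e := fun e => le_max_right _ _
  have hdeg := deg_hilo hD r
  have hMpos : ∀ v, 0 < Mv H N v := by
    intro v
    have : ((t3 H v + ((hi H r v).card + (lo H r v).card) : ℕ) : ℝ) ≤ D := by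
      exact_mod_cast hdeg v
    rw [Nat.cast_add] at this
    have h0 : (0 : ℝ) ≤ (((hi H r v).card + (lo H r v).card : ℕ) : ℝ) := Nat.cast_nonneg _
    unfold Mv
    rw [hN]
    linarith
  have hhiG : ∀ v u, ({v, u} : Finset V) ∈ G ∧ r v < r u ↔ u ∈ hi H r v := by
    intro v u
    unfold hi
    simp only [mem_filter, mem_univ, true_and, hG]
    constructor
    · rintro ⟨⟨h1, _⟩, h3⟩; exact ⟨h1, h3⟩
    · rintro ⟨h1, h3⟩
      exact ⟨⟨h1, card_pair fun h => by rw [h] at h3; exact lt_irrefl _ h3⟩, h3⟩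
  have hloG : ∀ v u, ({v, u} : Finset V) ∈ G ∧ r u < r v ↔ u ∈ lo H r v := by
    intro v u
    unfold lo
    simp only [mem_filter, mem_univ, true_and, hG]
    constructor
    · rintro ⟨⟨h1, _⟩, h3⟩; exact ⟨h1, h3⟩
    · rintro ⟨h1, h3⟩
      exact ⟨⟨h1, card_pair fun h => by rw [h] at h3; exact lt_irrefl _ h3⟩, h3⟩
  -- the decision vectors
  have hstar : ∀ i v, ∃ x : V → ℝ, (∀ u, 0 ≤ x u) ∧ (i ∈ s → v ∉ cov (B i) →
      (∀ u ∈ hi H r v \ cov (B i), x u ≤ κ i v u) ∧
      (∑ u ∈ hi H r v \ cov (B i), x u + ∑ u ∈ lo H r v \ cov (B i), κ i u v ≤ 1) ∧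
      (∀ K : Finset V, Disjoint K (cov (B i)) → v ∈ K →
        ∑ u ∈ hi H r v ∩ K, (2 * x u - 1 / Mv H N u) +
        ∑ u ∈ lo H r v ∩ K, 1 / Mv H N v ≤ 1 - 1 / (K.card : ℝ)) ∧
      (∀ U ⊆ hi H r v, (∀ u ∈ U, ∀ u' ∈ hi H r v, W {v, u} ≤ W {v, u'} → u' ∈ U) →
        ∑ u ∈ U \ cov (B i), x u = val H r N (κ i) (cov (B i)) v U / Mv H N v)) := by
    intro i v
    by_cases h : i ∈ s ∧ v ∉ cov (B i)
    · obtain ⟨x, h1, h2, h3, h4, h5⟩ := star_fill H r D hdeg hrt (κ i) (hκ i) (cov (B i)) v
        (hC i h.1 v h.2) (fun u => W {v, u})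
      exact ⟨x, h1, fun _ _ => ⟨h2, h3, h4, h5⟩⟩
    · exact ⟨fun _ => 0, fun _ => le_rfl, fun h1 h2 => absurd ⟨h1, h2⟩ h⟩
  choose x hx0 hx using hstar
  -- matchings of 2-edges
  have hmatch : ∀ i, ∃ T : Finset (Finset V), i ∈ s → T ⊆ G ∧ IsMatching T ∧
      (∀ e ∈ T, Disjoint e (cov (B i))) ∧
      ∑ v ∈ univ \ cov (B i), ∑ u ∈ hi H r v \ cov (B i), x i v u * W {v, u} ≤
        ∑ e ∈ T, w e := by
    intro i
    by_cases hi' : i ∈ s
    swap
    · exact ⟨∅, fun h => absurd h hi'⟩
    obtain ⟨R, hR⟩ : ∃ R : Finset V, R = univ \ cov (B i) := ⟨_, rfl⟩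
    have hRmem : ∀ z, z ∈ R ↔ z ∉ cov (B i) := fun z => by simp [hR]
    have hf1 : ∀ v, R.filter (fun u => ({v, u} : Finset V) ∈ G ∧ r v < r u) =
        hi H r v \ cov (B i) := by
      intro v; ext u
      rw [mem_filter, hhiG, mem_sdiff, hRmem]
      tauto
    have hf2 : ∀ v, R.filter (fun u => ({v, u} : Finset V) ∈ G ∧ r u < r v) =
        lo H r v \ cov (B i) := by
      intro v; ext u
      rw [mem_filter, hloG, mem_sdiff, hRmem]
      tauto
    have hf3 : ∀ K : Finset V, ∀ v, K.filter (fun u => ({v, u} : Finset V) ∈ G ∧ r v < r u) =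
        hi H r v ∩ K := by
      intro K v; ext u
      rw [mem_filter, hhiG, mem_inter]
      tauto
    have hf4 : ∀ K : Finset V, ∀ v, K.filter (fun u => ({v, u} : Finset V) ∈ G ∧ r u < r v) =
        lo H r v ∩ K := by
      intro K v; ext u
      rw [mem_filter, hloG, mem_inter]
      tauto
    obtain ⟨T, hTG, hTm, hTR, hTw⟩ := feas_state hG2 r R (κ i) (fun _ u => 1 / Mv H N u) (x i)
      (fun v u => hx0 i v u)
      (by
        intro v hv u hu hG' hlt
        have hv' := (hRmem v).1 hv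
        refine (hx i v hi' hv').1 u ?_
        rw [mem_sdiff]
        exact ⟨(hhiG v u).1 ⟨hG', hlt⟩, (hRmem u).1 hu⟩)
      (by
        intro v hv
        rw [hf1, hf2]
        exact (hx i v hi' ((hRmem v).1 hv)).2.1)
      (by
        intro K hK v hv
        rw [hf3, hf4]
        refine (hx i v hi' ((hRmem v).1 (hK hv))).2.2.1 K ?_ hv
        rw [disjoint_left]
        exact fun z hz => (hRmem z).1 (hK hz))
      W (fun e _ => hW0 e)
    refine ⟨T.filter fun e => 0 ≤ w e, fun _ => ⟨(filter_subset _ _).trans hTG,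
      hTm.mono (filter_subset _ _), ?_, ?_⟩⟩
    · intro e he
      have h1 := hTR e (mem_filter.1 he).1
      rw [disjoint_left]
      exact fun z hz => (hRmem z).1 (h1 hz)
    · have h1 : ∑ e ∈ T, W e = ∑ e ∈ T.filter (fun e => 0 ≤ w e), w e := by
        rw [sum_filter]
        refine sum_congr rfl fun e _ => ?_
        simp only [hW]
        split_ifs with h
        · exact max_eq_left h
        · exact max_eq_right (not_le.1 h).le
      rw [← h1, ← hR]
      refine le_trans (le_of_eq (sum_congr rfl fun v _ => ?_)) hTw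
      rw [hf1]
  choose T hT using hmatch
  -- the averaged inequality for the 2-edges
  have hlayer : ∀ v, (∑ u ∈ hi H r v, W {v, u}) / N ≤
      ∑ i ∈ s, p i * (if v ∈ cov (B i) then 0 else
        ∑ u ∈ hi H r v \ cov (B i), x i v u * W {v, u}) := by
    intro v
    set a : V → ℝ := fun u => ∑ i ∈ s, p i * (if v ∈ cov (B i) then 0 else
      (if u ∈ cov (B i) then 0 else x i v u)) - 1 / N with ha
    have h1 := layer _ (hi H r v) (fun u => W {v, u}) a rfl (fun u _ => hW0 _) (by
      intro U hU hup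
      have h2 : ∑ u ∈ U, a u = ∑ i ∈ s, p i * (if v ∈ cov (B i) then 0 else
          ∑ u ∈ U \ cov (B i), x i v u) - (U.card : ℝ) / N := by
        simp only [ha]
        rw [sum_sub_distrib, sum_const, nsmul_eq_mul, sum_comm]
        congr 1
        · refine sum_congr rfl fun i _ => ?_
          rw [← mul_sum]
          congr 1
          split_ifs with h
          · simp
          · rw [sdiff_eq_filter, sum_filter]
            refine sum_congr rfl fun u _ => ?_
            by_cases h3 : u ∈ cov (B i)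
            · simp [h3]
            · simp [h3]
        · ring
      rw [h2]
      have h3 : ∑ i ∈ s, p i * (if v ∈ cov (B i) then 0 else
          ∑ u ∈ U \ cov (B i), x i v u) =
          (∑ i ∈ s, p i * (if v ∈ cov (B i) then 0 else
            val H r N (κ i) (cov (B i)) v U)) / Mv H N v := by
        rw [sum_div]
        refine sum_congr rfl fun i hi' => ?_
        split_ifs with h
        · simp
        · rw [(hx i v hi' h).2.2.2 U hU hup]
          ring
      rw [h3, sub_nonneg, le_div_iff₀ (hMpos v)]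
      have := hcrit v U hU
      have h4 : (U.card : ℝ) / N * Mv H N v = Mv H N v * (U.card : ℝ) / N := by ring
      rw [h4]
      exact this)
    have h5 : ∑ u ∈ hi H r v, W {v, u} * a u =
        ∑ i ∈ s, p i * (if v ∈ cov (B i) then 0 else
          ∑ u ∈ hi H r v \ cov (B i), x i v u * W {v, u}) -
        (∑ u ∈ hi H r v, W {v, u}) / N := by
      simp only [ha, mul_sub]
      rw [sum_sub_distrib]
      congr 1
      · simp only [mul_sum]
        rw [sum_comm]
        refine sum_congr rfl fun i _ => ?_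
        split_ifs with h
        · simp
        · rw [mul_sum, sdiff_eq_filter, sum_filter]
          refine sum_congr rfl fun u _ => ?_
          by_cases h3 : u ∈ cov (B i)
          · simp [h3]
          · simp only [h3, not_false_eq_true, if_true, if_false]
            ring
      · rw [sum_div]
        exact sum_congr rfl fun u _ => by ring
    rw [h5] at h1
    linarith
  have hGW : ∑ v, ∑ u ∈ hi H r v, W {v, u} = ∑ e ∈ G, W e := by
    have h1 := sum_edges hG2 r (univ : Finset V) (fun v u => W {v, u})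
    have h2 : G.filter (fun e => e ⊆ (univ : Finset V)) = G :=
      filter_true_of_mem fun e _ => subset_univ e
    rw [h2] at h1
    have h3 : ∑ v, ∑ u ∈ hi H r v, W {v, u} =
        ∑ v, ∑ u ∈ univ.filter (fun u => ({v, u} : Finset V) ∈ G ∧ r v < r u), W {v, u} := by
      refine sum_congr rfl fun v _ => sum_congr ?_ fun _ _ => rfl
      ext u
      rw [mem_filter, hhiG]
      simp
    rw [h3, ← h1]
    exact sum_congr rfl fun e he => sum_pair_one (hG2 e he) hr W
  have h2edges : (∑ e ∈ G, W e) / N ≤ ∑ i ∈ s, p i * ∑ e ∈ T i, w e := by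
    rw [← hGW, sum_div]
    refine (sum_le_sum fun v _ => hlayer v).trans ?_
    rw [sum_comm]
    refine sum_le_sum fun i hi' => ?_
    rw [← mul_sum]
    refine mul_le_mul_of_nonneg_left ?_ (hp0 i hi')
    refine le_trans (le_of_eq ?_) (hT i hi').2.2.2
    rw [sdiff_eq_filter, sum_filter]
    refine sum_congr rfl fun v _ => ?_
    by_cases h3 : v ∈ cov (B i)
    · simp [h3]
    · simp [h3]
  have h3edges : (∑ E ∈ H3, w E) / N = ∑ i ∈ s, p i * ∑ E ∈ B i, w E := by
    have h1 : ∑ i ∈ s, p i * ∑ E ∈ B i, w E =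
        ∑ E ∈ H3, ∑ i ∈ s.filter (fun i => E ∈ B i), p i * w E := by
      simp only [mul_sum]
      refine sum_comm' ?_
      intro i E
      rw [mem_filter]
      constructor
      · rintro ⟨h1, h2⟩
        exact ⟨⟨h1, h2⟩, hBH i h1 h2⟩
      · rintro ⟨⟨h1, h2⟩, _⟩
        exact ⟨h1, h2⟩
    rw [h1, sum_div]
    refine sum_congr rfl fun E hE => ?_
    rw [← sum_mul, hmarg E (mem_filter.1 hE).1 (mem_filter.1 hE).2]
    ring
  have hsplit : ∑ E ∈ H.filter (fun E => 2 ≤ E.card), w E ≤ ∑ E ∈ H3, w E + ∑ e ∈ G, W e := by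
    have h10 : ∑ E ∈ H.filter (fun E => 2 ≤ E.card), w E =
        ∑ E ∈ H3, w E + ∑ E ∈ G, w E := by
      rw [← sum_filter_add_sum_filter_not (H.filter (fun E => 2 ≤ E.card)) (fun E => 3 ≤ E.card) w,
        filter_filter, filter_filter]
      congr 1
      · refine sum_congr (filter_congr fun E _ => ?_) fun _ _ => rfl
        constructor
        · rintro ⟨_, h⟩; exact h
        · intro h; exact ⟨by omega, h⟩
      · refine sum_congr (filter_congr fun E _ => ?_) fun _ _ => rfl
        constructor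
        · rintro ⟨_, h⟩; omega
        · intro h; exact ⟨by omega, by omega⟩
    rw [h10]
    exact add_le_add le_rfl (sum_le_sum fun e _ => le_max_left _ _)
  -- choose a state
  obtain ⟨i, hi', hbest⟩ : ∃ i ∈ s, (∑ E ∈ H.filter (fun E => 2 ≤ E.card), w E) ≤
      N * (∑ E ∈ B i, w E + ∑ e ∈ T i, w e) := by
    by_contra hcon
    push Not at hcon
    have h1 : ∑ i ∈ s, p i * (N * (∑ E ∈ B i, w E + ∑ e ∈ T i, w e)) <
        ∑ i ∈ s, p i * ∑ E ∈ H.filter (fun E => 2 ≤ E.card), w E := by
      have h2 : ∃ i ∈ s, 0 < p i := by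
        by_contra h3
        push Not at h3
        have : ∑ i ∈ s, p i ≤ 0 := sum_nonpos h3
        linarith
      obtain ⟨j, hj, hpj⟩ := h2
      refine sum_lt_sum (fun i hi' => mul_le_mul_of_nonneg_left (hcon i hi').le (hp0 i hi'))
        ⟨j, hj, mul_lt_mul_of_pos_left (hcon j hj) hpj⟩
    rw [← sum_mul, hp1, one_mul] at h1
    have h4 : ∑ i ∈ s, p i * (N * (∑ E ∈ B i, w E + ∑ e ∈ T i, w e)) =
        N * (∑ i ∈ s, p i * ∑ E ∈ B i, w E + ∑ i ∈ s, p i * ∑ e ∈ T i, w e) := by
      rw [← sum_add_distrib, mul_sum]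
      exact sum_congr rfl fun i _ => by ring
    rw [h4, ← h3edges] at h1
    have h5 : N * ((∑ E ∈ H3, w E) / N + (∑ e ∈ G, W e) / N) =
        ∑ E ∈ H3, w E + ∑ e ∈ G, W e := by
      field_simp
    have h6 : N * ((∑ E ∈ H3, w E) / N + (∑ e ∈ G, W e) / N) ≤
        N * ((∑ E ∈ H3, w E) / N + ∑ i ∈ s, p i * ∑ e ∈ T i, w e) :=
      mul_le_mul_of_nonneg_left (by linarith) hN0.le
    linarith
  obtain ⟨hTG, hTm, hTX, _⟩ := hT i hi'
  have hBi := hBH i hi'
  have hdisj : Disjoint (B i) (T i) := by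
    rw [disjoint_left]
    intro E hE hE'
    have h1 := (mem_filter.1 (hBi hE)).2
    have h2 := hG2 E (hTG hE')
    omega
  refine ⟨B i ∪ T i, ?_, ?_, ?_⟩
  · intro E hE
    rw [mem_union] at hE
    rcases hE with hE | hE
    · have := mem_filter.1 (hBi hE)
      exact mem_filter.2 ⟨this.1, by omega⟩
    · have := mem_filter.1 (hTG hE)
      exact mem_filter.2 ⟨this.1, by omega⟩
  · have hmix : ∀ E ∈ B i, ∀ e ∈ T i, Disjoint E e := by
      intro E hE e he
      have h1 := hTX e he
      refine Disjoint.symm (disjoint_of_subset_right ?_ h1)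
      intro z hz
      exact mem_biUnion.2 ⟨E, hE, hz⟩
    intro E hE F hF hEF
    rw [mem_union] at hE hF
    rcases hE with hE | hE <;> rcases hF with hF | hF
    · exact hBm i hi' E hE F hF hEF
    · exact hmix E hE F hF
    · exact (hmix F hF E hE).symm
    · exact hTm E hE F hF hEF
  · rw [sum_union hdisj]
    exact hbest

/-- A rank function which orders the vertices by `t_v`. -/
theorem exists_rank (H : Finset (Finset V)) :
    ∃ r : V → ℕ, Function.Injective r ∧ ∀ u v, r u < r v → t3 H u ≤ t3 H v := by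
  classical
  obtain ⟨e⟩ : Nonempty (V ≃ Fin (Fintype.card V)) := ⟨Fintype.equivFin V⟩
  refine ⟨fun v => t3 H v * Fintype.card V + (e v : ℕ), ?_, ?_⟩
  · intro u v huv
    simp only at huv
    have h1 := (e u).2
    have h2 := (e v).2
    have h3 : t3 H u = t3 H v := by
      rcases lt_trichotomy (t3 H u) (t3 H v) with h | h | h
      · have := Nat.mul_le_mul_right (Fintype.card V) (Nat.succ_le_of_lt h)
        rw [Nat.succ_mul] at this
        omega
      · exact h
      · have := Nat.mul_le_mul_right (Fintype.card V) (Nat.succ_le_of_lt h)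
        rw [Nat.succ_mul] at this
        omega
    rw [h3] at huv
    have h4 : (e u : ℕ) = e v := by omega
    exact e.injective (Fin.ext h4)
  · intro u v huv
    by_contra h
    push Not at h
    have h1 := (e u).2
    have h2 := (e v).2
    have := Nat.mul_le_mul_right (Fintype.card V) (Nat.succ_le_of_lt h)
    rw [Nat.succ_mul] at this
    simp only at huv
    omega

/-- Part 2, final form: if a law of matchings of the big edges with marginals `1 / (D + 1)` and
caps satisfying the criterion exist, then the inequality of Q1 holds for all weights. -/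
theorem criterion_suffices {ι : Type*} (H : Finset (Finset V)) (D : ℕ)
    (hD : ∀ x, ∑ E ∈ H.filter (fun E => x ∈ E), (E.card - 1) ≤ D)
    (r : V → ℕ) (hr : Function.Injective r) (hrt : ∀ u v, r u < r v → t3 H u ≤ t3 H v)
    (s : Finset ι) (p : ι → ℝ) (B : ι → Finset (Finset V)) (κ : ι → V → V → ℝ)
    (hp0 : ∀ i ∈ s, 0 ≤ p i) (hp1 : ∑ i ∈ s, p i = 1)
    (hBH : ∀ i ∈ s, B i ⊆ H.filter fun E => 3 ≤ E.card) (hBm : ∀ i ∈ s, IsMatching (B i))
    (hmarg : ∀ F ∈ H, 3 ≤ F.card → ∑ i ∈ s.filter (fun i => F ∈ B i), p i = 1 / ((D : ℝ) + 1))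
    (hκ : ∀ i v u, 0 ≤ κ i v u)
    (hC : ∀ i ∈ s, ∀ v, v ∉ cov (B i) → 0 ≤ Cr H r ((D : ℝ) + 1) (κ i) (cov (B i)) v)
    (hcrit : ∀ v, ∀ U ⊆ hi H r v, Mv H ((D : ℝ) + 1) v * (U.card : ℝ) / ((D : ℝ) + 1) ≤
      ∑ i ∈ s, p i * (if v ∈ cov (B i) then 0 else
        val H r ((D : ℝ) + 1) (κ i) (cov (B i)) v U))
    (w : Finset V → ℝ) (hw : ∀ E ∈ H, 0 ≤ w E) :
    ∃ M : Finset (Finset V), M ⊆ H ∧
      (∀ E ∈ M, ∀ F ∈ M, E ≠ F → Disjoint E F) ∧
      (∑ E ∈ H, w E) / ((D : ℝ) + 1) ≤ ∑ E ∈ M, w E :=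
  Furedi2.add_small w ((D : ℝ) + 1) le_rfl hw hD
    (fun w' => criterion_core H D hD r hr hrt s p B κ hp0 hp1 hBH hBm hmarg hκ hC hcrit w')

end Pool.Agent.FBR
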